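import Pool.Agent.H21.Semi8

/-!
# Spectral bound = growth bound for individually eventually positive semigroups on classical `L^p`

We prove: for every measure space `(X, μ)` and every `1 ≤ p < ∞`, every *individually* eventually
positive `C₀`-semigroup on the complex space `L^p(X, μ)` satisfies `s(A) = ω₀(A)`.  This is the
full question for commutative von Neumann algebras `M = L^∞(X, μ)` (no finiteness assumption on
the measure is needed).

The definitions of `IsC0Semigroup`, `GenRel` (graph of the generator), `IsResolventAt`,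
`genSpectrum`, `spectralBound`, `growthBound` are in `Pool.Agent.H21.Semi`; `posCone` (the cone of
a.e. nonnegative functions) is in `Pool.Agent.H21.Semi6`.
-/

namespace Pool.Agent.Results.MP_25d1d3_an.ClassicalLp

open Pool.Agent.H21 MeasureTheory
open scoped NNReal ENNReal

/-- `T` is individually eventually positive on `L^p(μ)`: for every `f ≥ 0` there is a time `t₀`
such that `T t f ≥ 0` for all `t ≥ t₀`. -/
def IndividuallyEventuallyPositive {X : Type*} [MeasurableSpace X] {μ : Measure X} {p : ℝ≥0∞}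
    [Fact (1 ≤ p)] (T : ℝ≥0 → Lp ℂ p μ →L[ℂ] Lp ℂ p μ) : Prop :=
  ∀ f ∈ posCone p μ, ∃ t₀ : ℝ≥0, ∀ t, t₀ ≤ t → T t f ∈ posCone p μ

/-- **Theorem.** Every individually eventually positive `C₀`-semigroup on `L^p(X, μ)`,
`1 ≤ p < ∞`, has equal spectral bound and growth bound. -/
theorem result {X : Type*} [MeasurableSpace X] (μ : Measure X) (p : ℝ≥0∞) [Fact (1 ≤ p)]
    (hp : p ≠ ∞) (T : ℝ≥0 → Lp ℂ p μ →L[ℂ] Lp ℂ p μ) (hT : IsC0Semigroup T)
    (hpos : IndividuallyEventuallyPositive T) :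
    spectralBound T = growthBound T := by
  refine le_antisymm (spectralBound_le_growthBound hT) ?_
  by_contra hlt
  rw [not_le, EReal.lt_iff_exists_real_btwn] at hlt
  obtain ⟨c, hc1, hc2⟩ := hlt
  apply absurd hc2
  rw [not_lt]
  have hT' := hT.rescale c
  have hpos' : ∀ f ∈ posCone p μ, ∃ t₀ : ℝ≥0, ∀ t, t₀ ≤ t → rescale c T t f ∈ posCone p μ := by
    intro f hf
    obtain ⟨t₀, ht₀⟩ := hpos f hf
    refine ⟨t₀, fun t ht => ?_⟩
    rw [rescale_apply]
    exact isClosedCone_posCone.smul_mem _ (Real.exp_pos _).le _ (ht₀ t ht)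
  have hres : ∀ b : ℝ, 0 ≤ b →
      ∃ R : Lp ℂ p μ →L[ℂ] Lp ℂ p μ, IsResolventAt (rescale c T) (b : ℂ) R := by
    intro b hb
    have h1 : ((b : ℂ) + (c : ℂ)) ∉ genSpectrum T := by
      intro h2
      have h3 : (((((b : ℂ) + (c : ℂ)).re : ℝ)) : EReal) ≤ spectralBound T :=
        le_iSup₂ (f := fun (z : ℂ) (_ : z ∈ genSpectrum T) => ((z.re : ℝ) : EReal)) _ h2
      have h4 : (((((b : ℂ) + (c : ℂ)).re : ℝ)) : EReal) < (c : EReal) := lt_of_le_of_lt h3 hc1
      rw [EReal.coe_lt_coe_iff] at h4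
      simp only [Complex.add_re, Complex.ofReal_re] at h4
      linarith
    have h2 : ∃ R : Lp ℂ p μ →L[ℂ] Lp ℂ p μ, IsResolventAt T ((b : ℂ) + (c : ℂ)) R := by
      by_contra h3
      exact h1 h3
    obtain ⟨R, hR⟩ := h2
    exact ⟨R, hR.rescale⟩
  obtain ⟨M, hM⟩ := bounded_of_resolvent hp hT' hpos' hres
  refine sInf_le ⟨c, rfl, M, fun t => ?_⟩
  have h1 := hM t
  rw [rescale, norm_smul, Complex.norm_real, Real.norm_of_nonneg (Real.exp_pos _).le] at h1
  have h2 : ‖T t‖ = Real.exp (c * t) * (Real.exp (-(c * t)) * ‖T t‖) := by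
    rw [← mul_assoc, ← Real.exp_add, add_neg_cancel, Real.exp_zero, one_mul]
  rw [h2, mul_comm M]
  gcongr

end Pool.Agent.Results.MP_25d1d3_an.ClassicalLp
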