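import Pool.Agent.H21.NC.Final

/-!
# An individually eventually positive semigroup on a noncommutative `L^p` with `s(A) < ω₀(A)`

We construct a von Neumann algebra `M` with a faithful normal tracial state `τ` and an
individually eventually positive `C₀`-semigroup on `L^p(M, τ)`, `p = 4/3`, whose generator has
spectral bound strictly smaller than its growth bound.  This answers Q1 in the negative.

Definitions used in the statement:

* `IsC0Semigroup`, `GenRel` (graph of the generator), `IsResolventAt`, `genSpectrum`,
  `spectralBound`, `growthBound` are in `Pool.Agent.H21.Semi`;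
* `IsTraceVector M Ω` (the vector state of `Ω` is a faithful tracial state on `M`),
  `tr Ω x = ⟪Ω, x Ω⟫`, `pnorm Ω p x = τ(|x|^p)^(1/p)` and `IsNCLp M Ω p ι` (`E` with
  `ι : M → E` is the completion of `M` for the `p`-norm) are in `Pool.Agent.H21.NC.Defs`;
* `ncCone M ι`, the closure in `E` of the image of the set of positive elements of `M` (this is the
  positive cone of `L^p(M, τ)`), is in `Pool.Agent.H21.NC.Ext`.
-/

namespace Pool.Agent.Results.MP_25d1d3_an.Disproof

open Pool.Agent.H21 Pool.Agent.H21.NC MeasureTheory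
open scoped NNReal ENNReal

/-- `T` is individually eventually positive for the cone `P`: for every `f ∈ P` there is a time
`t₀` such that `T t f ∈ P` for all `t ≥ t₀`. -/
def IndividuallyEventuallyPositive {E : Type*} [NormedAddCommGroup E] [NormedSpace ℂ E]
    (P : Set E) (T : ℝ≥0 → E →L[ℂ] E) : Prop :=
  ∀ f ∈ P, ∃ t₀ : ℝ≥0, ∀ t, t₀ ≤ t → T t f ∈ P

/-- **Theorem.** There are a von Neumann algebra `M` on a complex Hilbert space `H`, a unit vector
`Ω` whose vector state `τ` is a faithful tracial state on `M`, and an individually eventually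
positive `C₀`-semigroup `T` on `E = L^{4/3}(M, τ)` with `s(A) < ω₀(A)`. -/
theorem result :
    ∃ (H : Type) (_ : NormedAddCommGroup H) (_ : InnerProductSpace ℂ H) (_ : CompleteSpace H)
      (M : VonNeumannAlgebra H) (Ω : H),
      IsTraceVector M Ω ∧
      ∃ (E : Type) (_ : NormedAddCommGroup E) (_ : NormedSpace ℂ E) (_ : CompleteSpace E)
        (ι : (H →L[ℂ] H) → E),
        IsNCLp M Ω (4 / 3) ι ∧
        ∃ T : ℝ≥0 → E →L[ℂ] E,
          IsC0Semigroup T ∧ IndividuallyEventuallyPositive (ncCone M ι) T ∧
            spectralBound T < growthBound T := by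
  obtain ⟨H, i1, i2, i3, M, Ω, emb, X, Γ, hP, hF⟩ :=
    Pool.Agent.H20.FP.exists_freePoisson nu nu_ne_zero phi measurePreserving_phi phi_zero phi_add
      continuous_compMeasurePreserving_phi
  obtain ⟨E, j1, j2, j3, ι, hE⟩ := exists_isNCLp hP.isTrace
  exact ⟨H, i1, i2, i3, M, Ω, hP.isTrace, E, j1, j2, j3, ι, hE, exists_semigroup_NC hP hF hE⟩

end Pool.Agent.Results.MP_25d1d3_an.Disproof
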